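import Pool.Agent.BER.Stmts

/-!
# Squad BER, row LPB (helper52): bounds and continuity of the class `LP`.
-/

namespace Pool.Agent.BER.H52

open Set Filter Topology
open Pool.Agent.BER

lemma tg_le (s : Bool) (j : ℕ) (ψ : ℝ) : |tg s j ψ| ≤ 1 := by
  cases s
  · simpa [tg] using Real.abs_cos_le_one (j * ψ)
  · simpa [tg] using Real.abs_sin_le_one (j * ψ)

lemma tg_cont (s : Bool) (j : ℕ) : Continuous (tg s j) := by
  cases s
  · have : tg false j = fun ψ => Real.cos (j * ψ) := by funext ψ; simp [tg]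
    rw [this]; fun_prop
  · have : tg true j = fun ψ => Real.sin (j * ψ) := by funext ψ; simp [tg]
    rw [this]; fun_prop

lemma log_bd (b : ℕ) {t : ℝ} (ht : 1 ≤ t) :
    (Real.log t) ^ b ≤ (2 * (b : ℝ) + 2) ^ b * t ^ (1 / 2 : ℝ) := by
  have ht0 : 0 < t := lt_of_lt_of_le one_pos ht
  have hb : (0 : ℝ) < 2 * (b : ℝ) + 2 := by positivity
  have h1 : Real.log t ≤ t ^ (1 / (2 * (b : ℝ) + 2)) / (1 / (2 * (b : ℝ) + 2)) :=
    Real.log_le_rpow_div ht0.le (by positivity)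
  have h2 : t ^ (1 / (2 * (b : ℝ) + 2)) / (1 / (2 * (b : ℝ) + 2)) =
      (2 * (b : ℝ) + 2) * t ^ (1 / (2 * (b : ℝ) + 2)) := by
    field_simp
  rw [h2] at h1
  have h3 : (Real.log t) ^ b ≤ ((2 * (b : ℝ) + 2) * t ^ (1 / (2 * (b : ℝ) + 2))) ^ b :=
    pow_le_pow_left₀ (Real.log_nonneg ht) h1 b
  refine h3.trans ?_
  rw [mul_pow]
  refine mul_le_mul_of_nonneg_left ?_ (by positivity)
  rw [← Real.rpow_natCast, ← Real.rpow_mul ht0.le]
  refine Real.rpow_le_rpow_of_exponent_le ht ?_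
  rw [div_mul_eq_mul_div, one_mul, div_le_div_iff₀ hb two_pos]
  linarith

lemma gen_bd (k b j N : ℕ) (s : Bool) (hk : N ≤ k) (ψ : ℝ) {t : ℝ} (ht : 1 ≤ t) :
    |(1 / t) ^ k * (Real.log t) ^ b * tg s j ψ| ≤
      (2 * (b : ℝ) + 2) ^ b * t ^ ((1 / 2 : ℝ) - N) := by
  have ht0 : 0 < t := lt_of_lt_of_le one_pos ht
  have hl := Real.log_nonneg ht
  have h1 : (1 / t) ^ k ≤ (1 / t) ^ N :=
    pow_le_pow_of_le_one (by positivity) (by rw [div_le_one ht0]; exact ht) hk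
  have h2 := log_bd b ht
  have h3 : t ^ ((1 / 2 : ℝ) - N) = (1 / t) ^ N * t ^ (1 / 2 : ℝ) := by
    rw [Real.rpow_sub ht0, Real.rpow_natCast, one_div_pow]
    ring
  rw [abs_mul, abs_of_nonneg (mul_nonneg (by positivity) (pow_nonneg hl b)), h3]
  calc (1 / t) ^ k * (Real.log t) ^ b * |tg s j ψ|
      ≤ (1 / t) ^ k * (Real.log t) ^ b * 1 :=
        mul_le_mul_of_nonneg_left (tg_le s j ψ) (mul_nonneg (by positivity) (pow_nonneg hl b))
    _ = (1 / t) ^ k * (Real.log t) ^ b := mul_one _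
    _ ≤ (1 / t) ^ N * ((2 * (b : ℝ) + 2) ^ b * t ^ (1 / 2 : ℝ)) :=
        mul_le_mul h1 h2 (pow_nonneg hl b) (by positivity)
    _ = (2 * (b : ℝ) + 2) ^ b * ((1 / t) ^ N * t ^ (1 / 2 : ℝ)) := by ring

/-- Row LPB. -/
theorem lpb : LpbStmt := by
  intro M _ _ N e P hP
  unfold LP at hP
  induction hP using Submodule.span_induction with
  | mem P h =>
    obtain ⟨k, b, j, s, x, hk, -, rfl⟩ := h
    refine ⟨⟨(2 * (b : ℝ) + 2) ^ b * ‖x‖, by positivity, fun ψ t ht => ?_⟩, ?_⟩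
    · show ‖((1 / t) ^ k * (Real.log t) ^ b * tg s j ψ) • x‖ ≤ _
      rw [norm_smul, Real.norm_eq_abs]
      calc |(1 / t) ^ k * (Real.log t) ^ b * tg s j ψ| * ‖x‖
          ≤ (2 * (b : ℝ) + 2) ^ b * t ^ ((1 / 2 : ℝ) - N) * ‖x‖ :=
            mul_le_mul_of_nonneg_right (gen_bd k b j N s hk ψ ht) (norm_nonneg x)
        _ = (2 * (b : ℝ) + 2) ^ b * ‖x‖ * t ^ ((1 / 2 : ℝ) - N) := by ring
    · have h := tg_cont s j
      show Continuous fun z : ℝ × ℝ × ℝ => (z.2.1 ^ k * z.2.2 ^ b * tg s j z.1) • x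
      fun_prop
  | zero =>
    refine ⟨⟨0, le_rfl, fun ψ t ht => ?_⟩, ?_⟩
    · simp
    · exact continuous_const
  | add P Q _ _ iP iQ =>
    obtain ⟨⟨C1, h1, b1⟩, c1⟩ := iP
    obtain ⟨⟨C2, h2, b2⟩, c2⟩ := iQ
    refine ⟨⟨C1 + C2, add_nonneg h1 h2, fun ψ t ht => ?_⟩, c1.add c2⟩
    rw [add_mul]
    exact (norm_add_le _ _).trans (add_le_add (b1 ψ t ht) (b2 ψ t ht))
  | smul a P _ iP =>
    obtain ⟨⟨C1, h1, b1⟩, c1⟩ := iP
    refine ⟨⟨|a| * C1, mul_nonneg (abs_nonneg a) h1, fun ψ t ht => ?_⟩, c1.const_smul a⟩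
    show ‖a • P ψ (1 / t) (Real.log t)‖ ≤ _
    rw [norm_smul, Real.norm_eq_abs, mul_assoc]
    exact mul_le_mul_of_nonneg_left (b1 ψ t ht) (abs_nonneg a)

end Pool.Agent.BER.H52
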